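import Pool.Agent.helper97.NA.SpecE

/-!
# Row nx:XZE (MP_baa4d7_al, theorem NA, block E): the terms of a normal chain centralise `E'`
-/

set_option autoImplicit false

namespace Pool.Agent.NAB

open Pool.Agent.helper58.DC Pool.Agent.DI Pool.Agent.GR Pool.Agent.OB Pool.Agent.DR Pool.Agent.FI Pool.Agent.FI3 Pool.Agent.FI4 Pool.Agent.FI4I Pool.Agent.FI4E Pool.Agent.LE Pool.Agent.L5

theorem XZE_nz {G : Type} [Group G] {P : Subgroup G} {n : G} (hn : n ∈ nz P)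
    (x : G) (h : n * x * n⁻¹ ∈ cz P) : x ∈ cz P := by
  have h1 := Subgroup.mem_normalizer_iff.1 hn
  rw [Subgroup.mem_centralizer_iff] at h ⊢
  intro y hy
  have h2 := h (n * y * n⁻¹) ((h1 y).1 hy)
  have h3 : n * (y * x) * n⁻¹ = n * (x * y) * n⁻¹ := by
    have e1 : n * (y * x) * n⁻¹ = n * y * n⁻¹ * (n * x * n⁻¹) := by group
    have e2 : n * (x * y) * n⁻¹ = n * x * n⁻¹ * (n * y * n⁻¹) := by group
    rw [e1, e2, h2]
  exact mul_left_cancel (mul_right_cancel h3)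

theorem XZE_cj {G : Type} [Group G] (k l : G) (E : Subgroup G) : cjS k (cjS l E) = cjS (k * l) E := by
  ext y
  rw [mem_cjS, mem_cjS, mem_cjS]
  have e : l⁻¹ * (k⁻¹ * y * k) * l = (k * l)⁻¹ * y * (k * l) := by group
  rw [e]

theorem XZE (hNUX : NUX_stmt) (hNUF : NUF_stmt) (hNUH : NUH_stmt) (hNUE : NUE_stmt) (hNEG : NEG_stmt) (hC5a : C5a_stmt)
    (hCLS : CLS_stmt) : XZE_stmt := by
  intro p e m M hM hme G _ _ χ hχ z x hU R C hC E' η hη
  have : Fact p.Prime := ⟨hM.pr⟩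
  obtain ⟨h1, h2, z', x', h3, h4⟩ := hη
  obtain ⟨b1, b2, b3, b4, b5, b6, -⟩ := hNEG p e hM.pr G z'
  subst h4
  have hzK := h3.zm
  have hzN : z' ∈ nrm C := (Subgroup.mem_inf.1 hzK).1
  have hEN : Eg p e z' ≤ nrm C := b2 _ hzN
  obtain ⟨a1, -⟩ := hNEG p e hM.pr G z
  refine ⟨hEN, ?_, b6.1 h3.pe, ?_, ?_⟩
  · intro Q hQ
    have hQN : Q ≤ nrm C := by
      refine le_iInf₂ fun S hS => ?_
      rcases hC.ch.chain.total hQ hS with h | h
      · exact h.trans Subgroup.le_normalizer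
      · exact hC.nm S hS Q hQ h
    have hNQ : nrm C ≤ nz Q := iInf₂_le Q hQ
    obtain ⟨φ, hφ, hs⟩ := hNUX p e m M hM G (nrm C) (Eg p e z') η h1 z' x' h3 rfl
    have hU' := hNUF p e m M hM hme G (nrm C) (Eg p e z') η h1 z' x' h3 rfl φ hs
    obtain ⟨c1, -, c3, c4, c5, -⟩ := hCLS G (nrm C) (z' * x')
    have hzx : z' * x' ∈ cz Q := by
      by_contra hcon
      apply hU'.ne
      have h5 : Mcong M (cc φ (cls (nrm C) (z' * x'))) 0 := by
        refine hC5a G p M hM.max hM.mem Q (nrm C) hQN hNQ (hC.ch.pg Q hQ) φ hφ _ c1 c3 ?_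
        intro y hy
        rcases c5 y with h | h
        · exact h
        · exfalso
          obtain ⟨l, hl, hly⟩ := (c4 y).1 h
          apply hcon
          apply XZE_nz (hNQ hl)
          rw [hly]
          exact hy
      have h6 := InM.of_mcong hM h5
      rwa [sub_zero] at h6
    have hz' : z' ∈ cz Q := ((b4 x' h3.pe h3.re h3.co (cz Q)).2.2.2 hzx).1
    exact Subgroup.le_centralizer_iff.1 (b2 _ hz')
  · have : Eg p e z' ≤ Subgroup.centralizer ({z'} : Set G) := b2 _ (by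
      rw [Subgroup.mem_centralizer_iff]
      intro y hy
      rw [Set.mem_singleton_iff.1 hy])
    exact this.trans b5.1
  · obtain ⟨l, -, hl⟩ := hNUH p e m M hM G ⊤ (nrm C ⊓ nz (Eg p e z')) le_top η h1 χ z x h2 hU
    obtain ⟨k, -, hk⟩ := hNUE p e m M hM hme G (nrm C ⊓ nz (Eg p e z')) η h1 _ _ _ _ hl h3
    refine ⟨k * l, ?_⟩
    rw [hk, a1 l, XZE_cj]

end Pool.Agent.NAB
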